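import Pool.Agent.H32.KM7.Fill

/-!
# Row BASE: a standard label against the labels at time zero
-/

set_option autoImplicit false

namespace Pool.KM7

open Finset Real
open Pool.Agent.H49.Ent Pool.Agent.H32.Dense Pool.STK Pool.KA Pool.KSAT Pool.K2S
open Geo Pool.KMX

variable {L : ℕ}

/-- A label of the filled family, converted: only the cost and the standard label appear. -/
theorem base_of {b : ℝ} (hb : 1 ≤ b) (F : Fam 2 L) (s : ℕ) (j : F.Ω → ℕ) {v : ℝ}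
    (B : Pool.LK.Lbl (dig F s) b)
    (hB : B.cost ≤ CH (dig F s).p (fun w => ((dig F s).X (L + s) w, (dig F s).T w)) (dig F s).Z -
      ((L : ℝ) + s) * Real.log 2 + v) :
    ∃ q : (dig F s).Ω → ℕ × ℕ × ℕ, (∀ w, (q w).2.2 < 2 ^ (q w).2.1) ∧
      (∀ w, (2 : ℝ) ^ ((q w).1 + (q w).2.1) ≤ 2 * b * 2 ^ (L + s)) ∧
      CH (dig F s).p (fun w => (q w, slb (q w) 1 ((dig F s).u w) ((dig F s).d w))) (dig F s).Z +
        (3 * (L : ℝ) + s) * Real.log 2 ≤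
      CH F.p (fun ω => ((F.T ω, j ω), slb (L, s, j ω) (2 ^ L) (F.x ω) (F.d ω))) F.Z +
        (∑ w, (dig F s).p w * (2 * ((q w).1 : ℝ) + (q w).2.1)) * Real.log 2 +
        (v + Cfi + Ccv b) := by
  obtain ⟨q, h1, h2, h3⟩ := conv hb (dig F s) B
  refine ⟨q, h1, h2, ?_⟩
  have h4 := fill_std F s j
  have h5 : (∑ w, (dig F s).p w * (2 * ((L + s : ℕ) : ℝ) - (2 * (q w).1 + (q w).2.1))) *
      Real.log 2 = 2 * ((L : ℝ) + s) * Real.log 2 -
      (∑ w, (dig F s).p w * (2 * ((q w).1 : ℝ) + (q w).2.1)) * Real.log 2 := by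
    have e : ∀ w, (dig F s).p w * (2 * ((L + s : ℕ) : ℝ) - (2 * (q w).1 + (q w).2.1)) =
        (dig F s).p w * (2 * ((L : ℝ) + s)) -
          (dig F s).p w * (2 * ((q w).1 : ℝ) + (q w).2.1) := by
      intro w
      push_cast
      ring
    rw [Finset.sum_congr rfl fun w _ => e w, Finset.sum_sub_distrib, ← Finset.sum_mul,
      (dig F s).isLaw.sum_one]
    ring
  rw [h5] at h3
  linarith

/-- **(BASE)** for times uniform up to a small deficit, from the label form of `K'(2)`. -/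
theorem base_lks {b : ℝ} (hb : 1 ≤ b) (hLK : Pool.LK.LKS 2 b) : ∀ ε > 0, ∃ θ > 0, ∃ K₀ : ℕ,
    ∀ (L s : ℕ), K₀ ≤ L → ∀ (F : Fam 2 L), F.Tm (θ * L) → ∀ j : F.Ω → ℕ,
    ∃ q : (dig F s).Ω → ℕ × ℕ × ℕ, (∀ w, (q w).2.2 < 2 ^ (q w).2.1) ∧
      (∀ w, (2 : ℝ) ^ ((q w).1 + (q w).2.1) ≤ 2 * b * 2 ^ (L + s)) ∧
      CH (dig F s).p (fun w => (q w, slb (q w) 1 ((dig F s).u w) ((dig F s).d w))) (dig F s).Z +
        (3 * (L : ℝ) + s) * Real.log 2 ≤
      CH F.p (fun ω => ((F.T ω, j ω), slb (L, s, j ω) (2 ^ L) (F.x ω) (F.d ω))) F.Z +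
        (∑ w, (dig F s).p w * (2 * ((q w).1 : ℝ) + (q w).2.1)) * Real.log 2 +
        ε * ((L : ℝ) + s) := by
  intro ε hε
  obtain ⟨θ₁, hθ₁, J₀, h⟩ := hLK (ε / 3) (by positivity)
  obtain ⟨K₁, hK₁⟩ : ∃ K₁ : ℕ, Cfi + Ccv b ≤ ε / 3 * K₁ := by
    obtain ⟨n, hn⟩ := exists_nat_ge ((Cfi + Ccv b) / (ε / 3))
    refine ⟨n, ?_⟩
    rw [div_le_iff₀ (by positivity)] at hn
    linarith
  refine ⟨min θ₁ (ε / 3), by positivity, max J₀ K₁, ?_⟩
  intro L s hL F hT j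
  have hJ₀ : J₀ ≤ L := (le_max_left _ _).trans hL
  have hK : (K₁ : ℝ) ≤ L := by exact_mod_cast (le_max_right J₀ K₁).trans hL
  have hL0 : (0 : ℝ) ≤ L := Nat.cast_nonneg L
  have hs0 : (0 : ℝ) ≤ s := Nat.cast_nonneg s
  have hT1 : (dig F s).Tm (θ₁ * ((L + s : ℕ) : ℝ)) := by
    have h1 := dig_Tm F s hT
    unfold Fam.Tm at h1 ⊢
    have h2 : min θ₁ (ε / 3) * (L : ℝ) ≤ θ₁ * ((L + s : ℕ) : ℝ) := by
      push_cast
      exact mul_le_mul (min_le_left _ _) (by linarith) hL0 hθ₁.le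
    linarith
  obtain ⟨B, hB⟩ := h (L + s) (by omega) (dig F s) hT1
  have hp0 := (dig F s).isLaw.nonneg
  -- the entropy of the time
  have h1 : ((L : ℝ) + s) * Real.log 2 - ε / 3 * L ≤ CH (dig F s).p (dig F s).T (dig F s).Z := by
    have h2 := dig_Tm F s hT
    unfold Fam.Tm at h2
    have h3 : CH (dig F s).p (dig F s).T (fun w => ((dig F s).l w, (dig F s).Z w)) ≤
        CH (dig F s).p (dig F s).T (dig F s).Z := by
      refine CH_mono_cond hp0 ?_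
      intro w w' _ _ e
      exact (Prod.ext_iff.mp e).2
    have h4 : min θ₁ (ε / 3) * (L : ℝ) ≤ ε / 3 * L :=
      mul_le_mul_of_nonneg_right (min_le_right _ _) hL0
    push_cast at h2
    linarith
  have h2 := CH_chain hp0 ((dig F s).X (L + s)) (dig F s).T (dig F s).Z
  have h3 : CH (dig F s).p ((dig F s).X (L + s)) (dig F s).W =
      CH (dig F s).p ((dig F s).X (L + s)) (fun w => ((dig F s).T w, (dig F s).Z w)) := rfl
  obtain ⟨q, k1, k2, k3⟩ := base_of (v := ε / 3 * L + ε / 3 * ((L : ℝ) + s)) hb F s j B (by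
    rw [h3] at hB
    push_cast at hB
    linarith)
  refine ⟨q, k1, k2, k3.trans ?_⟩
  have h5 : ε / 3 * (K₁ : ℝ) ≤ ε / 3 * L := mul_le_mul_of_nonneg_left hK (by positivity)
  have h6 : 0 ≤ ε / 3 * (s : ℝ) := by positivity
  linarith

end Pool.KM7
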