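import Mathlib

/-!
# The 2x2 geometry: from a matrix to a rectangle with a standard angle
-/

set_option autoImplicit false

namespace Pool.KM7.G32

open Real

/-- The angle (mod `π`) of a unit vector. -/
theorem ang {x y : ℝ} (h : x ^ 2 + y ^ 2 = 1) :
    ∃ φ : ℝ, 0 ≤ φ ∧ φ < π ∧ ((x = cos φ ∧ y = sin φ) ∨ (x = -cos φ ∧ y = -sin φ)) := by
  have hx1 : x ≤ 1 := by nlinarith [sq_nonneg y]
  have hx2 : -1 ≤ x := by nlinarith [sq_nonneg y]
  have key : ∀ a b : ℝ, a ^ 2 + b ^ 2 = 1 → -1 < a → 0 ≤ b →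
      ∃ φ : ℝ, 0 ≤ φ ∧ φ < π ∧ a = cos φ ∧ b = sin φ := by
    intro a b hab ha hb
    have ha1 : a ≤ 1 := by nlinarith [sq_nonneg b]
    refine ⟨arccos a, arccos_nonneg a, ?_, (cos_arccos ha.le ha1).symm, ?_⟩
    · have := arccos_lt_arccos (x := -1) (y := a) le_rfl ha ha1
      rwa [arccos_neg_one] at this
    · rw [sin_arccos, ← hab, add_sub_cancel_left, sqrt_sq hb]
  rcases lt_trichotomy y 0 with hy | hy | hy
  · have hx : -1 < -x := by
      nlinarith [sq_nonneg (x + 1), mul_pos_of_neg_of_neg hy hy, sq_nonneg (x - 1)]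
    obtain ⟨φ, h0, h1, h2, h3⟩ := key (-x) (-y) (by nlinarith) hx (by linarith)
    exact ⟨φ, h0, h1, Or.inr ⟨by linarith, by linarith⟩⟩
  · subst hy
    have : x = 1 ∨ x = -1 := by
      have : (x - 1) * (x + 1) = 0 := by nlinarith
      rcases mul_eq_zero.mp this with h | h
      · left; linarith
      · right; linarith
    rcases this with hx | hx
    · exact ⟨0, le_rfl, pi_pos, Or.inl ⟨by simp [hx], by simp⟩⟩
    · exact ⟨0, le_rfl, pi_pos, Or.inr ⟨by simp [hx], by simp⟩⟩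
  · have hx : -1 < x := by
      nlinarith [sq_nonneg (x + 1), mul_pos hy hy, sq_nonneg (x - 1)]
    obtain ⟨φ, h0, h1, h2, h3⟩ := key x y h hx hy.le
    exact ⟨φ, h0, h1, Or.inl ⟨h2, h3⟩⟩

/-- The nearest standard angle of level `p`. -/
theorem grid {φ : ℝ} (h0 : 0 ≤ φ) (h1 : φ < π) (p : ℕ) :
    ∃ j : ℕ, j < 2 ^ p ∧ |π * j / 2 ^ p - φ| ≤ 4 / 2 ^ p := by
  have h2 : (0 : ℝ) < 2 ^ p := by positivity
  refine ⟨⌊2 ^ p * φ / π⌋₊, ?_, ?_⟩
  · rw [Nat.floor_lt (by positivity)]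
    push_cast
    rw [div_lt_iff₀ pi_pos]
    nlinarith
  · have h3 : ((⌊2 ^ p * φ / π⌋₊ : ℕ) : ℝ) ≤ 2 ^ p * φ / π := Nat.floor_le (by positivity)
    have h4 : 2 ^ p * φ / π < ((⌊2 ^ p * φ / π⌋₊ : ℕ) : ℝ) + 1 := Nat.lt_floor_add_one _
    set k : ℝ := ((⌊2 ^ p * φ / π⌋₊ : ℕ) : ℝ) with hk
    rw [le_div_iff₀ pi_pos] at h3
    rw [div_lt_iff₀ pi_pos] at h4
    have e : π * k / 2 ^ p - φ = (π * k - 2 ^ p * φ) / 2 ^ p := by
      field_simp
    rw [e, abs_div, abs_of_pos h2]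
    apply div_le_div_of_nonneg_right _ h2.le
    rw [abs_le]
    have := pi_lt_four
    constructor <;> nlinarith

/-- Rotated coordinates. -/
theorem rot {θ φ x y : ℝ} :
    cos θ * x + sin θ * y
      = (cos φ * x + sin φ * y) * cos (θ - φ) + (-sin φ * x + cos φ * y) * sin (θ - φ) ∧
    -sin θ * x + cos θ * y
      = -(cos φ * x + sin φ * y) * sin (θ - φ) + (-sin φ * x + cos φ * y) * cos (θ - φ) := by
  have h : θ = φ + (θ - φ) := by ring
  have hc : cos θ = cos φ * cos (θ - φ) - sin φ * sin (θ - φ) := by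
    conv_lhs => rw [h]
    exact cos_add _ _
  have hs : sin θ = sin φ * cos (θ - φ) + cos φ * sin (θ - φ) := by
    conv_lhs => rw [h]
    exact sin_add _ _
  rw [hc, hs]
  constructor <;> ring

/-- Powers of two near a real number. -/
theorem pw2 {r : ℝ} : ∃ n : ℕ, (2 : ℝ) ^ n ≤ max 1 r ∧ r < 2 ^ (n + 1) := by
  rcases lt_or_ge r 1 with h | h
  · exact ⟨0, by simp, by norm_num; linarith⟩
  · have h1 : 1 ≤ ⌊r⌋₊ := (Nat.one_le_floor_iff r).mpr h
    refine ⟨Nat.log 2 ⌊r⌋₊, ?_, ?_⟩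
    · have h2 : 2 ^ Nat.log 2 ⌊r⌋₊ ≤ ⌊r⌋₊ := Nat.pow_log_le_self 2 (by omega)
      have h3 : ((2 ^ Nat.log 2 ⌊r⌋₊ : ℕ) : ℝ) ≤ (⌊r⌋₊ : ℕ) := by exact_mod_cast h2
      have h4 : ((⌊r⌋₊ : ℕ) : ℝ) ≤ r := Nat.floor_le (by linarith)
      push_cast at h3
      exact (h3.trans h4).trans (le_max_right _ _)
    · have h2 : ⌊r⌋₊ < 2 ^ (Nat.log 2 ⌊r⌋₊ + 1) := Nat.lt_pow_succ_log_self (by norm_num) _
      have h3 : r < (⌊r⌋₊ : ℕ) + 1 := Nat.lt_floor_add_one r
      have h4 : ((⌊r⌋₊ : ℕ) : ℝ) + 1 ≤ ((2 ^ (Nat.log 2 ⌊r⌋₊ + 1) : ℕ) : ℝ) := by exact_mod_cast h2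
      push_cast at h4
      linarith

/-- **The section of a matrix**, the first row being the longest. -/
theorem sec {α β γ δ C : ℝ} (hC : 1 ≤ C) (hD : α * δ - β * γ ≠ 0)
    (hle : γ ^ 2 + δ ^ 2 ≤ α ^ 2 + β ^ 2) (hb : √(α ^ 2 + β ^ 2) ≤ C * |α * δ - β * γ|) :
    ∃ a p j : ℕ, j < 2 ^ p ∧ |α * δ - β * γ| ≤ 4 * 2 ^ (2 * a + p) ∧
      (2 : ℝ) ^ (a + p) ≤ max 1 √(α ^ 2 + β ^ 2) ∧
      ∀ x y t : ℝ, |α * x + β * y| ≤ t → |γ * x + δ * y| ≤ t →
        2 ^ a * |cos (π * j / 2 ^ p) * x + sin (π * j / 2 ^ p) * y| ≤ 9 * C * t ∧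
        2 ^ (a + p) * |-sin (π * j / 2 ^ p) * x + cos (π * j / 2 ^ p) * y| ≤ 9 * C * t := by
  set D : ℝ := |α * δ - β * γ| with hDd
  set ρ : ℝ := √(α ^ 2 + β ^ 2) with hρd
  have hD0 : 0 < D := abs_pos.mpr hD
  have hN : 0 ≤ α ^ 2 + β ^ 2 := by positivity
  have hρ2 : ρ ^ 2 = α ^ 2 + β ^ 2 := sq_sqrt hN
  have hρ0' : 0 ≤ ρ := sqrt_nonneg _
  have hDρ : D ≤ ρ ^ 2 := by
    rw [hρ2]
    refine abs_le_of_sq_le_sq ?_ hN
    have e : (α * δ - β * γ) ^ 2 = (α ^ 2 + β ^ 2) * (γ ^ 2 + δ ^ 2) - (α * γ + β * δ) ^ 2 := by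
      ring
    rw [e]
    nlinarith [sq_nonneg (α * γ + β * δ)]
  have hG : |α * γ + β * δ| ≤ ρ ^ 2 := by
    rw [hρ2]
    refine abs_le_of_sq_le_sq ?_ hN
    have e : (α * γ + β * δ) ^ 2 = (α ^ 2 + β ^ 2) * (γ ^ 2 + δ ^ 2) - (α * δ - β * γ) ^ 2 := by
      ring
    rw [e]
    nlinarith [sq_nonneg (α * δ - β * γ)]
  have hρ0 : 0 < ρ := by
    rcases hρ0'.lt_or_eq with h | h
    · exact h
    · rw [← h] at hDρ
      norm_num at hDρ
      linarith
  obtain ⟨P, hP1, hP2⟩ := pw2 (r := ρ)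
  obtain ⟨a, ha1, ha2⟩ := pw2 (r := D / ρ)
  have hDρ' : D / ρ ≤ ρ := by
    rw [div_le_iff₀ hρ0]
    nlinarith
  have haP : a ≤ P := by
    have h1 : (2 : ℝ) ^ a < 2 ^ (P + 1) := by
      refine ha1.trans_lt (max_lt ?_ (hDρ'.trans_lt hP2))
      calc (1 : ℝ) < 2 := by norm_num
        _ ≤ 2 ^ (P + 1) := by
          have : (1 : ℝ) ≤ 2 ^ P := one_le_pow₀ (by norm_num)
          rw [pow_succ]
          linarith
    have := (pow_lt_pow_iff_right₀ (by norm_num : (1 : ℝ) < 2)).mp h1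
    omega
  have hCD : (2 : ℝ) ^ a * ρ ≤ C * D := by
    have h1 : (2 : ℝ) ^ a ≤ C * D / ρ := by
      refine ha1.trans (max_le ?_ ?_)
      · rw [le_div_iff₀ hρ0]
        linarith
      · rw [div_le_div_iff_of_pos_right hρ0]
        nlinarith
    rwa [le_div_iff₀ hρ0] at h1
  have hCρ : (2 : ℝ) ^ P ≤ C * ρ := by
    refine hP1.trans (max_le ?_ (by nlinarith))
    by_contra hcon
    push Not at hcon
    have : ρ < ρ := by
      calc ρ ≤ C * D := hb
        _ ≤ C * ρ * ρ := by nlinarith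
        _ < 1 * ρ := by exact mul_lt_mul_of_pos_right hcon hρ0
        _ = ρ := one_mul _
    exact lt_irrefl _ this
  have hu : (β / ρ) ^ 2 + (-α / ρ) ^ 2 = 1 := by
    have : (β / ρ) ^ 2 + (-α / ρ) ^ 2 = (α ^ 2 + β ^ 2) / ρ ^ 2 := by
      field_simp
      ring
    rw [this, hρ2, div_self]
    rw [← hρ2]
    positivity
  obtain ⟨φ, hφ0, hφ1, hφ⟩ := ang hu
  obtain ⟨j, hj, hjφ⟩ := grid hφ0 hφ1 (P - a)
  refine ⟨a, P - a, j, hj, ?_, ?_, ?_⟩
  · have e : 2 * a + (P - a) = a + P := by omega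
    rw [e, pow_add]
    have h1 : D = D / ρ * ρ := by
      field_simp
    have h2 : D / ρ * ρ ≤ 2 ^ (a + 1) * 2 ^ (P + 1) :=
      mul_le_mul ha2.le hP2.le hρ0' (by positivity)
    calc D ≤ 2 ^ (a + 1) * 2 ^ (P + 1) := by
          rw [h1]
          exact h2
      _ = 4 * (2 ^ a * 2 ^ P) := by ring
  · have e : a + (P - a) = P := by omega
    rw [e]
    exact hP1
  · intro x y t h1 h2
    have e : a + (P - a) = P := by omega
    rw [e]
    set θ : ℝ := π * j / 2 ^ (P - a) with hθ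
    obtain ⟨r1, r2⟩ := rot (θ := θ) (φ := φ) (x := x) (y := y)
    rw [r1, r2]
    set c : ℝ := cos φ * x + sin φ * y with hc
    set s : ℝ := -sin φ * x + cos φ * y with hs
    have ht : 0 ≤ t := (abs_nonneg _).trans h1
    have hsρ : |s| * ρ ≤ t := by
      have h3 : |s| * ρ = |α * x + β * y| := by
        have hm : |s| * ρ = |s * ρ| := by rw [abs_mul, abs_of_pos hρ0]
        rw [hm]
        rcases hφ with ⟨ha, hb'⟩ | ⟨ha, hb'⟩
        · have : s * ρ = α * x + β * y := by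
            rw [hs, ← ha, ← hb']
            field_simp
          rw [this]
        · have ha' : cos φ = -(β / ρ) := by linarith
          have hb2 : sin φ = -(-α / ρ) := by linarith
          have : s * ρ = -(α * x + β * y) := by
            rw [hs, ha', hb2]
            field_simp
            ring
          rw [this, abs_neg]
      rw [h3]
      exact h1
    have hcρ : |c| * ρ = |β * x - α * y| := by
      have hm : |c| * ρ = |c * ρ| := by rw [abs_mul, abs_of_pos hρ0]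
      rw [hm]
      rcases hφ with ⟨ha, hb'⟩ | ⟨ha, hb'⟩
      · have : c * ρ = β * x - α * y := by
          rw [hc, ← ha, ← hb']
          field_simp
          ring
        rw [this]
      · have ha' : cos φ = -(β / ρ) := by linarith
        have hb2 : sin φ = -(-α / ρ) := by linarith
        have : c * ρ = -(β * x - α * y) := by
          rw [hc, ha', hb2]
          field_simp
          ring
        rw [this, abs_neg]
    have hcD : |c| * D ≤ 2 * ρ * t := by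
      have e1 : (β * x - α * y) * (α * δ - β * γ)
          = (α * x + β * y) * (α * γ + β * δ) - (γ * x + δ * y) * ρ ^ 2 := by
        rw [hρ2]
        ring
      have h3 : |β * x - α * y| * D ≤ 2 * ρ ^ 2 * t := by
        rw [hDd, ← abs_mul, e1]
        refine (abs_sub _ _).trans ?_
        rw [abs_mul, abs_mul, abs_of_nonneg (sq_nonneg ρ)]
        have h4 : |α * x + β * y| * |α * γ + β * δ| ≤ t * ρ ^ 2 :=
          mul_le_mul h1 hG (abs_nonneg _) ht
        have h5 : |γ * x + δ * y| * ρ ^ 2 ≤ t * ρ ^ 2 :=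
          mul_le_mul_of_nonneg_right h2 (sq_nonneg ρ)
        linarith
      rw [← hcρ] at h3
      have h4 : ρ * (|c| * D) ≤ ρ * (2 * ρ * t) := by nlinarith
      exact le_of_mul_le_mul_left h4 hρ0
    have k1 : 2 ^ a * |c| ≤ 2 * C * t := by
      have h3 : (2 ^ a * |c|) * ρ ≤ (2 * C * t) * ρ := by
        calc (2 ^ a * |c|) * ρ = (2 ^ a * ρ) * |c| := by ring
          _ ≤ C * D * |c| := mul_le_mul_of_nonneg_right hCD (abs_nonneg _)
          _ = C * (|c| * D) := by ring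
          _ ≤ C * (2 * ρ * t) := mul_le_mul_of_nonneg_left hcD (by linarith)
          _ = (2 * C * t) * ρ := by ring
      exact le_of_mul_le_mul_right h3 hρ0
    have k2 : 2 ^ P * |s| ≤ C * t := by
      calc 2 ^ P * |s| ≤ C * ρ * |s| := mul_le_mul_of_nonneg_right hCρ (abs_nonneg _)
        _ = C * (|s| * ρ) := by ring
        _ ≤ C * t := mul_le_mul_of_nonneg_left hsρ (by linarith)
    have k3 : 2 ^ a * |s| ≤ C * t := by
      refine le_trans ?_ k2
      exact mul_le_mul_of_nonneg_right (pow_le_pow_right₀ (by norm_num) haP) (abs_nonneg _)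
    have s1 : |sin (θ - φ)| ≤ 4 / 2 ^ (P - a) := abs_sin_le_abs.trans hjφ
    have s2 : |sin (θ - φ)| ≤ 1 := abs_sin_le_one _
    have s3 : |cos (θ - φ)| ≤ 1 := abs_cos_le_one _
    have hCt : 0 ≤ C * t := mul_nonneg (by linarith) ht
    clear_value c s θ D ρ
    constructor
    · have h6 : |c * cos (θ - φ) + s * sin (θ - φ)| ≤ |c| + |s| := by
        refine (abs_add_le _ _).trans ?_
        rw [abs_mul, abs_mul]
        exact add_le_add (mul_le_of_le_one_right (abs_nonneg _) s3)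
          (mul_le_of_le_one_right (abs_nonneg _) s2)
      have h7 : 2 ^ a * |c * cos (θ - φ) + s * sin (θ - φ)| ≤ 2 ^ a * (|c| + |s|) :=
        mul_le_mul_of_nonneg_left h6 (by positivity)
      have h8 : 2 ^ a * (|c| + |s|) = 2 ^ a * |c| + 2 ^ a * |s| := by ring
      linarith
    · have h5 : (2 : ℝ) ^ P = 2 ^ a * 2 ^ (P - a) := by
        rw [← pow_add]
        congr 1
        omega
      have h6 : |-c * sin (θ - φ) + s * cos (θ - φ)| ≤ |c| * (4 / 2 ^ (P - a)) + |s| := by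
        refine (abs_add_le _ _).trans ?_
        rw [abs_mul, abs_mul, abs_neg]
        exact add_le_add (mul_le_mul_of_nonneg_left s1 (abs_nonneg _))
          (mul_le_of_le_one_right (abs_nonneg _) s3)
      have h7 : 2 ^ P * |-c * sin (θ - φ) + s * cos (θ - φ)|
          ≤ 2 ^ P * (|c| * (4 / 2 ^ (P - a)) + |s|) :=
        mul_le_mul_of_nonneg_left h6 (by positivity)
      have h8 : 2 ^ P * (|c| * (4 / 2 ^ (P - a)) + |s|) = 4 * (2 ^ a * |c|) + 2 ^ P * |s| := by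
        rw [mul_add, h5]
        field_simp
      linarith

end Pool.KM7.G32
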