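import Pool.Agent.H13.LK.Defs
import Pool.Agent.H55.KM7.Sub
import Pool.Agent.H32.KM7.Geo

/-!
# Row CONV: from a label with a frame to a section with a standard angle
-/

set_option autoImplicit false

namespace Pool.KM7

open Finset Real
open Pool.Agent.H49.Ent Pool.Agent.H32.Dense Pool.STK Pool.KA Pool.KSAT Pool.K2S
open Geo

/-- The section of a label: one sample. -/
theorem conv_pt {b : ℝ} (hb : 1 ≤ b) (k : Fin 2 → ℕ) (M : Fin 2 → Fin 2 → ℝ)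
    (hM : ∀ i j, |M i j| ≤ b) (hI : ∃ B : Fin 2 → Fin 2 → ℝ, (∀ i j, |B i j| ≤ b) ∧
      ∀ i l, ∑ j, B i j * M j l = if i = l then 1 else 0) {J : ℕ} (hk : ∀ i, k i ≤ J) :
    ∃ q : ℕ × ℕ × ℕ, q.2.2 < 2 ^ q.2.1 ∧ (2 : ℝ) ^ (k 0 + k 1) ≤ 8 * b ^ 2 * 2 ^ (2 * q.1 + q.2.1) ∧
      (2 : ℝ) ^ (q.1 + q.2.1) ≤ 2 * b * 2 ^ J ∧
      ∀ (v : Fin 2 → ℝ) (t : ℝ), (∀ i, |2 ^ k i * mco M v i| ≤ t) →
        2 ^ q.1 * |ce (ag q.2.1 q.2.2) v| ≤ 36 * b ^ 3 * t ∧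
        2 ^ (q.1 + q.2.1) * |cn (ag q.2.1 q.2.2) v| ≤ 36 * b ^ 3 * t := by
  obtain ⟨B, hB, hBM⟩ := hI
  have hb0 : 0 < b := by linarith
  -- the determinant
  have e00 := hBM 0 0
  have e01 := hBM 0 1
  have e10 := hBM 1 0
  have e11 := hBM 1 1
  rw [Fin.sum_univ_two] at e00 e01 e10 e11
  simp only [if_true, Fin.isValue, zero_ne_one, one_ne_zero, if_false] at e00 e01 e10 e11
  have hdet : (B 0 0 * B 1 1 - B 0 1 * B 1 0) * (M 0 0 * M 1 1 - M 0 1 * M 1 0) = 1 := by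
    have : (B 0 0 * B 1 1 - B 0 1 * B 1 0) * (M 0 0 * M 1 1 - M 0 1 * M 1 0) =
        (B 0 0 * M 0 0 + B 0 1 * M 1 0) * (B 1 0 * M 0 1 + B 1 1 * M 1 1) -
          (B 0 0 * M 0 1 + B 0 1 * M 1 1) * (B 1 0 * M 0 0 + B 1 1 * M 1 0) := by ring
    rw [this, e00, e01, e10, e11]
    norm_num
  have hdB : |B 0 0 * B 1 1 - B 0 1 * B 1 0| ≤ 2 * b ^ 2 := by
    refine (abs_sub _ _).trans ?_
    rw [abs_mul, abs_mul]
    have h1 : |B 0 0| * |B 1 1| ≤ b * b := mul_le_mul (hB 0 0) (hB 1 1) (abs_nonneg _) hb0.le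
    have h2 : |B 0 1| * |B 1 0| ≤ b * b := mul_le_mul (hB 0 1) (hB 1 0) (abs_nonneg _) hb0.le
    nlinarith
  set dM : ℝ := M 0 0 * M 1 1 - M 0 1 * M 1 0 with hdM
  have hdM1 : 1 ≤ 2 * b ^ 2 * |dM| := by
    have h1 : |B 0 0 * B 1 1 - B 0 1 * B 1 0| * |dM| = 1 := by
      rw [← abs_mul, hdet, abs_one]
    rw [← h1]
    exact mul_le_mul_of_nonneg_right hdB (abs_nonneg _)
  have hdM0 : dM ≠ 0 := by
    intro h
    rw [h, abs_zero] at hdM1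
    linarith
  -- the general statement with the rows in any order
  have key : ∀ i i' : Fin 2, |M i 0 * M i' 1 - M i 1 * M i' 0| = |dM| →
      (M i 0 * M i' 1 - M i 1 * M i' 0) ≠ 0 → k 0 + k 1 = k i + k i' →
      (2 ^ k i' * M i' 0) ^ 2 + (2 ^ k i' * M i' 1) ^ 2 ≤
        (2 ^ k i * M i 0) ^ 2 + (2 ^ k i * M i 1) ^ 2 →
      ∃ q : ℕ × ℕ × ℕ, q.2.2 < 2 ^ q.2.1 ∧
        (2 : ℝ) ^ (k 0 + k 1) ≤ 8 * b ^ 2 * 2 ^ (2 * q.1 + q.2.1) ∧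
        (2 : ℝ) ^ (q.1 + q.2.1) ≤ 2 * b * 2 ^ J ∧
        ∀ (v : Fin 2 → ℝ) (t : ℝ), (∀ i, |2 ^ k i * mco M v i| ≤ t) →
          2 ^ q.1 * |ce (ag q.2.1 q.2.2) v| ≤ 36 * b ^ 3 * t ∧
          2 ^ (q.1 + q.2.1) * |cn (ag q.2.1 q.2.2) v| ≤ 36 * b ^ 3 * t := by
    intro i i' hd hd0 hkk hle
    have hDe : 2 ^ k i * M i 0 * (2 ^ k i' * M i' 1) - 2 ^ k i * M i 1 * (2 ^ k i' * M i' 0) =
        2 ^ (k 0 + k 1) * (M i 0 * M i' 1 - M i 1 * M i' 0) := by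
      rw [hkk, pow_add]
      ring
    have hDa : |2 ^ k i * M i 0 * (2 ^ k i' * M i' 1) - 2 ^ k i * M i 1 * (2 ^ k i' * M i' 0)| =
        2 ^ (k 0 + k 1) * |dM| := by
      rw [hDe, abs_mul, hd, abs_of_pos (by positivity)]
    have hρ : √((2 ^ k i * M i 0) ^ 2 + (2 ^ k i * M i 1) ^ 2) ≤ 2 * b * 2 ^ k i := by
      rw [sqrt_le_left (by positivity)]
      have h1 : M i 0 ^ 2 ≤ b ^ 2 := sq_le_sq' (by linarith [(abs_le.mp (hM i 0)).1])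
        (abs_le.mp (hM i 0)).2
      have h2 : M i 1 ^ 2 ≤ b ^ 2 := sq_le_sq' (by linarith [(abs_le.mp (hM i 1)).1])
        (abs_le.mp (hM i 1)).2
      have h3 : (0 : ℝ) < (2 ^ k i) ^ 2 := by positivity
      calc (2 ^ k i * M i 0) ^ 2 + (2 ^ k i * M i 1) ^ 2
          = (2 ^ k i) ^ 2 * (M i 0 ^ 2 + M i 1 ^ 2) := by ring
        _ ≤ (2 ^ k i) ^ 2 * (4 * b ^ 2) := by
          apply mul_le_mul_of_nonneg_left _ h3.le
          nlinarith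
        _ = (2 * b * 2 ^ k i) ^ 2 := by ring
    have hC : 1 ≤ 4 * b ^ 3 := by
      have : 1 ≤ b ^ 3 := one_le_pow₀ hb
      linarith
    have hbd : √((2 ^ k i * M i 0) ^ 2 + (2 ^ k i * M i 1) ^ 2) ≤ 4 * b ^ 3 *
        |2 ^ k i * M i 0 * (2 ^ k i' * M i' 1) - 2 ^ k i * M i 1 * (2 ^ k i' * M i' 0)| := by
      rw [hDa]
      refine hρ.trans ?_
      have h1 : (2 : ℝ) ^ k i ≤ 2 ^ (k 0 + k 1) :=
        pow_le_pow_right₀ (by norm_num) (by rw [hkk]; omega)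
      have h2 : (0 : ℝ) < 2 ^ k i := by positivity
      calc 2 * b * 2 ^ k i ≤ 2 * b * 2 ^ k i * (2 * b ^ 2 * |dM|) :=
            le_mul_of_one_le_right (by positivity) hdM1
        _ = 4 * b ^ 3 * |dM| * 2 ^ k i := by ring
        _ ≤ 4 * b ^ 3 * |dM| * 2 ^ (k 0 + k 1) :=
            mul_le_mul_of_nonneg_left h1 (by positivity)
        _ = 4 * b ^ 3 * (2 ^ (k 0 + k 1) * |dM|) := by ring
    obtain ⟨a, p, j, hj, h1, h2, h3⟩ := G32.sec hC (by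
      rw [hDe]
      exact mul_ne_zero (by positivity) hd0) hle hbd
    refine ⟨(a, p, j), hj, ?_, ?_, ?_⟩
    · rw [hDa] at h1
      have h4 : (0 : ℝ) < 2 ^ (k 0 + k 1) := by positivity
      calc (2 : ℝ) ^ (k 0 + k 1) ≤ 2 ^ (k 0 + k 1) * (2 * b ^ 2 * |dM|) :=
            le_mul_of_one_le_right h4.le hdM1
        _ = 2 * b ^ 2 * (2 ^ (k 0 + k 1) * |dM|) := by ring
        _ ≤ 2 * b ^ 2 * (4 * 2 ^ (2 * a + p)) := mul_le_mul_of_nonneg_left h1 (by positivity)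
        _ = 8 * b ^ 2 * 2 ^ (2 * a + p) := by ring
    · refine h2.trans (max_le ?_ (hρ.trans ?_))
      · have : (1 : ℝ) ≤ 2 ^ J := one_le_pow₀ (by norm_num)
        nlinarith
      · have : (2 : ℝ) ^ k i ≤ 2 ^ J := pow_le_pow_right₀ (by norm_num) (hk i)
        exact mul_le_mul_of_nonneg_left this (by positivity)
    · intro v t hv
      have g1 : |2 ^ k i * M i 0 * v 0 + 2 ^ k i * M i 1 * v 1| ≤ t := by
        have h := hv i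
        have e : 2 ^ k i * mco M v i = 2 ^ k i * M i 0 * v 0 + 2 ^ k i * M i 1 * v 1 := by
          unfold mco
          rw [Fin.sum_univ_two]
          ring
        rwa [e] at h
      have g2 : |2 ^ k i' * M i' 0 * v 0 + 2 ^ k i' * M i' 1 * v 1| ≤ t := by
        have h := hv i'
        have e : 2 ^ k i' * mco M v i' = 2 ^ k i' * M i' 0 * v 0 + 2 ^ k i' * M i' 1 * v 1 := by
          unfold mco
          rw [Fin.sum_univ_two]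
          ring
        rwa [e] at h
      obtain ⟨g3, g4⟩ := h3 (v 0) (v 1) t g1 g2
      have c1 : ce (ag p j) v = cos (π * j / 2 ^ p) * v 0 + sin (π * j / 2 ^ p) * v 1 := by
        unfold ce ag
        ring
      have c2 : cn (ag p j) v = -sin (π * j / 2 ^ p) * v 0 + cos (π * j / 2 ^ p) * v 1 := by
        unfold cn ag
        ring
      simp only
      rw [c1, c2]
      have e : 36 * b ^ 3 * t = 9 * (4 * b ^ 3) * t := by ring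
      rw [e]
      exact ⟨g3, g4⟩
  rcases le_total ((2 ^ k 1 * M 1 0) ^ 2 + (2 ^ k 1 * M 1 1) ^ 2)
    ((2 ^ k 0 * M 0 0) ^ 2 + (2 ^ k 0 * M 0 1) ^ 2) with h | h
  · exact key 0 1 rfl hdM0 rfl h
  · have e : M 1 0 * M 0 1 - M 1 1 * M 0 0 = -dM := by
      rw [hdM]
      ring
    refine key 1 0 (by rw [e, abs_neg]) (by rw [e]; exact neg_ne_zero.mpr hdM0) (by omega) h

/-- The label of a section `(a, p, j)` at a window of length `1 / W`. -/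
noncomputable def slb (q : ℕ × ℕ × ℕ) (W : ℝ) (x d : Fin 2 → ℝ) : (Fin 2 → ℤ) × (Fin 2 → ℤ) :=
  lab (ag q.2.1 q.2.2) (1 / 2 ^ q.1) (1 / 2 ^ q.1 / 2 ^ q.2.1) W x d

/-- The constant of the conversion. -/
noncomputable def Ccv (b : ℝ) : ℝ := Real.log (8 * b ^ 2) + 4 * Real.log (2 * (36 * b ^ 3 + 1) + 1)

/-- **(CONV)** From a label with a frame to a section. -/
theorem conv {b : ℝ} (hb : 1 ≤ b) {J : ℕ} (F : Fam 2 J) (B : Pool.LK.Lbl F b) :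
    ∃ q : F.Ω → ℕ × ℕ × ℕ, (∀ ω, (q ω).2.2 < 2 ^ (q ω).2.1) ∧
      (∀ ω, (2 : ℝ) ^ ((q ω).1 + (q ω).2.1) ≤ 2 * b * 2 ^ J) ∧
      CH F.p (fun ω => (q ω, slb (q ω) 1 (F.u ω) (F.d ω))) F.Z +
        (∑ ω, F.p ω * (2 * (J : ℝ) - (2 * (q ω).1 + (q ω).2.1))) * Real.log 2 ≤
      B.cost + Ccv b := by
  have hp := F.isLaw
  have hp0 := hp.nonneg
  have hb0 : 0 < b := by linarith
  have hch : ∀ y : (Fin 2 → ℕ) × (Fin 2 → Fin 2 → ℝ), ∃ q : ℕ × ℕ × ℕ,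
      (∀ i, y.1 i ≤ J) → (∀ i j, |y.2 i j| ≤ b) →
      (∃ B : Fin 2 → Fin 2 → ℝ, (∀ i j, |B i j| ≤ b) ∧
        ∀ i l, ∑ j, B i j * y.2 j l = if i = l then 1 else 0) →
      q.2.2 < 2 ^ q.2.1 ∧ (2 : ℝ) ^ (y.1 0 + y.1 1) ≤ 8 * b ^ 2 * 2 ^ (2 * q.1 + q.2.1) ∧
      (2 : ℝ) ^ (q.1 + q.2.1) ≤ 2 * b * 2 ^ J ∧
      ∀ (v : Fin 2 → ℝ) (t : ℝ), (∀ i, |2 ^ y.1 i * mco y.2 v i| ≤ t) →
        2 ^ q.1 * |ce (ag q.2.1 q.2.2) v| ≤ 36 * b ^ 3 * t ∧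
        2 ^ (q.1 + q.2.1) * |cn (ag q.2.1 q.2.2) v| ≤ 36 * b ^ 3 * t := by
    intro y
    by_cases h : (∀ i, y.1 i ≤ J) ∧ (∀ i j, |y.2 i j| ≤ b) ∧
      (∃ B : Fin 2 → Fin 2 → ℝ, (∀ i j, |B i j| ≤ b) ∧
        ∀ i l, ∑ j, B i j * y.2 j l = if i = l then 1 else 0)
    · obtain ⟨h1, h2, h3⟩ := h
      obtain ⟨q, hq⟩ := conv_pt hb y.1 y.2 h2 h3 h1
      exact ⟨q, fun _ _ _ => hq⟩
    · exact ⟨(0, 0, 0), fun h1 h2 h3 => absurd ⟨h1, h2, h3⟩ h⟩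
  choose Q hQ using hch
  set q : F.Ω → ℕ × ℕ × ℕ := fun ω => Q (B.k ω, B.M ω) with hq
  have hqω := fun ω => hQ (B.k ω, B.M ω) (B.le ω) (B.bd ω) (B.inv ω)
  refine ⟨q, fun ω => (hqω ω).1, fun ω => (hqω ω).2.2.1, ?_⟩
  have h1 : ∀ ω, ∑ i, ((J : ℝ) - B.k ω i) = 2 * (J : ℝ) - ((B.k ω 0 + B.k ω 1 : ℕ) : ℝ) := by
    intro ω
    rw [Fin.sum_univ_two]
    push_cast
    ring
  have h2 : ∀ ω, ((B.k ω 0 + B.k ω 1 : ℕ) : ℝ) * Real.log 2 ≤ Real.log (8 * b ^ 2) +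
      (2 * ((q ω).1 : ℝ) + (q ω).2.1) * Real.log 2 := by
    intro ω
    have h3 := Real.log_le_log (by positivity) (hqω ω).2.1
    rw [Real.log_mul (by positivity) (by positivity), Real.log_pow, Real.log_pow] at h3
    push_cast at h3 ⊢
    exact h3
  have h3 : (∑ ω, F.p ω * (2 * (J : ℝ) - (2 * (q ω).1 + (q ω).2.1))) * Real.log 2 ≤
      (∑ ω, F.p ω * ∑ i, ((J : ℝ) - B.k ω i)) * Real.log 2 + Real.log (8 * b ^ 2) := by
    have e : Real.log (8 * b ^ 2) = ∑ ω, F.p ω * Real.log (8 * b ^ 2) := by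
      rw [← Finset.sum_mul, hp.sum_one, one_mul]
    rw [e, Finset.sum_mul, Finset.sum_mul, ← Finset.sum_add_distrib]
    refine Finset.sum_le_sum fun ω _ => ?_
    rw [h1 ω, mul_assoc, mul_assoc, ← mul_add]
    refine mul_le_mul_of_nonneg_left ?_ (hp0 ω)
    have := h2 ω
    linarith
  -- the entropy
  have h4 := CH_le_add hp0 (fun ω => (q ω, slb (q ω) 1 (F.u ω) (F.d ω))) B.lab F.Z
  have mate : ∀ ω ω', 0 < F.p ω → 0 < F.p ω' → B.lab ω = B.lab ω' → q ω = q ω' ∧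
      ∀ x : F.Ω → Fin 2 → ℝ, (x = F.u ∨ x = F.d) →
        |ce (ag (q ω).2.1 (q ω).2.2) (fun i => x ω i - x ω' i)| ≤
          36 * b ^ 3 * (1 / 2 ^ (q ω).1) ∧
        |cn (ag (q ω).2.1 (q ω).2.2) (fun i => x ω i - x ω' i)| ≤
          36 * b ^ 3 * (1 / 2 ^ (q ω).1 / 2 ^ (q ω).2.1) := by
    intro ω ω' _ _ h
    unfold Pool.LK.Lbl.lab at h
    simp only [Prod.mk.injEq] at h
    obtain ⟨⟨hk, hM⟩, hu, hd⟩ := h
    have hqq : q ω = q ω' := by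
      rw [hq]
      simp only
      rw [hk, hM]
    refine ⟨hqq, ?_⟩
    intro x hx
    have hfl : flk (B.k ω) (mco (B.M ω) (x ω)) = flk (B.k ω) (mco (B.M ω) (x ω')) := by
      rcases hx with rfl | rfl
      · rw [hu, hk, hM]
      · rw [hd, hk, hM]
    have hv : ∀ i, |2 ^ B.k ω i * mco (B.M ω) (fun i => x ω i - x ω' i) i| ≤ 1 := by
      intro i
      have e1 := congrFun hfl i
      unfold flk at e1
      have e2 := (Int.abs_sub_lt_one_of_floor_eq_floor e1).le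
      have e3 : 2 ^ B.k ω i * mco (B.M ω) (fun i => x ω i - x ω' i) i =
          2 ^ B.k ω i * mco (B.M ω) (x ω) i - 2 ^ B.k ω i * mco (B.M ω) (x ω') i := by
        unfold mco
        rw [← mul_sub, ← Finset.sum_sub_distrib]
        congr 1
        refine Finset.sum_congr rfl fun j _ => ?_
        ring
      rw [e3]
      exact e2
    obtain ⟨g1, g2⟩ := (hqω ω).2.2.2 _ 1 hv
    rw [mul_one] at g1 g2
    have p1 : (0 : ℝ) < 2 ^ (q ω).1 := by positivity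
    have p2 : (0 : ℝ) < 2 ^ (q ω).2.1 := by positivity
    constructor
    · rw [mul_one_div, le_div_iff₀ p1]
      linarith
    · rw [div_div, ← pow_add, mul_one_div, le_div_iff₀ (by positivity)]
      linarith
  have h5 : CH F.p (fun ω => (q ω, slb (q ω) 1 (F.u ω) (F.d ω))) (fun ω => (B.lab ω, F.Z ω)) ≤
      4 * Real.log (2 * (36 * b ^ 3 + 1) + 1) := by
    have k1 := CH_subadd hp0 q (fun ω => slb (q ω) 1 (F.u ω) (F.d ω))
      (fun ω => (B.lab ω, F.Z ω))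
    have k2 : CH F.p q (fun ω => (B.lab ω, F.Z ω)) = 0 :=
      CH_eq_zero hp0 (fun ω ω' h h' e => (mate ω ω' h h' (Prod.ext_iff.mp e).1).1)
    have k3 := CH_subadd hp0 (fun ω => lb (ag (q ω).2.1 (q ω).2.2) (1 / 2 ^ (q ω).1)
        (1 / 2 ^ (q ω).1 / 2 ^ (q ω).2.1) (F.u ω))
      (fun ω => lb (ag (q ω).2.1 (q ω).2.2) (1 * (1 / 2 ^ (q ω).1))
        (1 * (1 / 2 ^ (q ω).1 / 2 ^ (q ω).2.1)) (F.d ω)) (fun ω => (B.lab ω, F.Z ω))
    have k4 : CH F.p (fun ω => lb (ag (q ω).2.1 (q ω).2.2) (1 / 2 ^ (q ω).1)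
        (1 / 2 ^ (q ω).1 / 2 ^ (q ω).2.1) (F.u ω)) (fun ω => (B.lab ω, F.Z ω)) ≤
        (2 : ℕ) * Real.log (2 * (36 * b ^ 3 + 1) + 1) := by
      refine vec_const hp0 hp.sum_one _ _ fun ω ω' h h' e => ?_
      obtain ⟨m1, m2⟩ := mate ω ω' h h' (Prod.ext_iff.mp e).1
      obtain ⟨m3, m4⟩ := m2 F.u (Or.inl rfl)
      rw [← m1]
      exact lb_near (by positivity) (by positivity) m3 m4
    have k5 : CH F.p (fun ω => lb (ag (q ω).2.1 (q ω).2.2) (1 * (1 / 2 ^ (q ω).1))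
        (1 * (1 / 2 ^ (q ω).1 / 2 ^ (q ω).2.1)) (F.d ω)) (fun ω => (B.lab ω, F.Z ω)) ≤
        (2 : ℕ) * Real.log (2 * (36 * b ^ 3 + 1) + 1) := by
      refine vec_const hp0 hp.sum_one _ _ fun ω ω' h h' e => ?_
      obtain ⟨m1, m2⟩ := mate ω ω' h h' (Prod.ext_iff.mp e).1
      obtain ⟨m3, m4⟩ := m2 F.d (Or.inr rfl)
      rw [← m1, one_mul, one_mul]
      exact lb_near (by positivity) (by positivity) m3 m4
    have k6 : CH F.p (fun ω => slb (q ω) 1 (F.u ω) (F.d ω)) (fun ω => (B.lab ω, F.Z ω)) =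
        CH F.p (fun ω => (lb (ag (q ω).2.1 (q ω).2.2) (1 / 2 ^ (q ω).1)
          (1 / 2 ^ (q ω).1 / 2 ^ (q ω).2.1) (F.u ω),
          lb (ag (q ω).2.1 (q ω).2.2) (1 * (1 / 2 ^ (q ω).1))
            (1 * (1 / 2 ^ (q ω).1 / 2 ^ (q ω).2.1)) (F.d ω))) (fun ω => (B.lab ω, F.Z ω)) := rfl
    push_cast at k4 k5
    linarith
  have h6 : B.cost = CH F.p B.lab F.Z +
      (∑ ω, F.p ω * ∑ i, ((J : ℝ) - B.k ω i)) * Real.log 2 := rfl
  unfold Ccv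
  linarith

end Pool.KM7
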