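import Pool.Agent.H32.KM7.Conv
import Pool.Agent.H15.KMAX.Seed

/-!
# Filling a standard label: more digits of the time
-/

set_option autoImplicit false

namespace Pool.KM7

open Finset Real
open Pool.Agent.H49.Ent Pool.Agent.H32.Dense Pool.STK Pool.KA Pool.KSAT Pool.K2S
open Geo Pool.KMX

variable {m J : ℕ}

instance instNE (s : ℕ) : Nonempty (Fin (2 ^ s)) := ⟨⟨0, by positivity⟩⟩

/-- `s` more digits of the time, uniform and independent. -/
noncomputable def dig (F : Fam m J) (s : ℕ) : Fam m (J + s) where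
  Ω := F.Ω × Fin (2 ^ s)
  ζ := F.ζ
  fin := inferInstance
  p := sd F.p (Fin (2 ^ s))
  u := fun w => F.u w.1
  d := fun w => F.d w.1
  T := fun w => F.T w.1 * 2 ^ s + w.2
  Z := fun w => F.Z w.1
  isLaw := sd_isLaw F.isLaw
  dir := fun w => F.dir w.1
  tim := fun w => by
    have h1 := F.tim w.1
    have h2 := w.2.2
    calc F.T w.1 * 2 ^ s + w.2 < F.T w.1 * 2 ^ s + 2 ^ s := by omega
      _ = (F.T w.1 + 1) * 2 ^ s := by ring
      _ ≤ 2 ^ J * 2 ^ s := Nat.mul_le_mul_right _ h1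
      _ = 2 ^ (J + s) := (pow_add _ _ _).symm

theorem dig_x (F : Fam m J) (s : ℕ) (w : F.Ω × Fin (2 ^ s)) (i : Fin m) :
    (dig F s).x w i = F.x w.1 i + ((w.2 : ℕ) : ℝ) / 2 ^ (J + s) * F.d w.1 i := by
  change F.u w.1 i + ((F.T w.1 * 2 ^ s + w.2 : ℕ) : ℝ) / 2 ^ (J + s) * F.d w.1 i =
    F.u w.1 i + (F.T w.1 : ℝ) / 2 ^ J * F.d w.1 i + _
  push_cast
  rw [pow_add]
  field_simp
  ring

theorem dig_det (F : Fam m J) (s : ℕ) {w w' : F.Ω × Fin (2 ^ s)}
    (h : F.T w.1 * 2 ^ s + w.2 = F.T w'.1 * 2 ^ s + w'.2) : F.T w.1 = F.T w'.1 ∧ w.2 = w'.2 := by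
  have h1 := w.2.2
  have h2 := w'.2.2
  have h3 : F.T w.1 = F.T w'.1 := by
    have : (F.T w.1 * 2 ^ s + w.2) / 2 ^ s = (F.T w'.1 * 2 ^ s + w'.2) / 2 ^ s := by rw [h]
    rwa [Nat.mul_comm, Nat.mul_add_div (by positivity), Nat.div_eq_of_lt h1, add_zero,
      Nat.mul_comm, Nat.mul_add_div (by positivity), Nat.div_eq_of_lt h2, add_zero] at this
  refine ⟨h3, ?_⟩
  rw [h3] at h
  exact Fin.ext (Nat.add_left_cancel h)

/-- The entropy of the new time. -/
theorem dig_T (F : Fam m J) (s : ℕ) {κ : Type} (Y : F.Ω → κ) :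
    CH (dig F s).p (dig F s).T (fun w => Y w.1) = CH F.p F.T Y + s * Real.log 2 := by
  have hq : ∀ w, 0 ≤ sd F.p (Fin (2 ^ s)) w := (sd_isLaw F.isLaw).nonneg
  have h1 : CH (dig F s).p (dig F s).T (fun w => Y w.1) =
      CH (sd F.p (Fin (2 ^ s))) (fun w => (w.2, F.T w.1)) (fun w => Y w.1) := by
    refine CH_congr hq ?_ ?_ (fun _ _ _ _ h => h) (fun _ _ _ _ h => h)
    · intro w w' _ _ h
      obtain ⟨h1, h2⟩ := dig_det F s (Prod.ext_iff.mp h).1
      simp only [Prod.mk.injEq]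
      exact ⟨h2, h1⟩
    · intro w w' _ _ h
      simp only [Prod.mk.injEq] at h
      change F.T w.1 * 2 ^ s + w.2 = F.T w'.1 * 2 ^ s + w'.2
      rw [h.1.1, h.1.2]
  rw [h1, CH_chain hq]
  have h2 := sd_CH_unif (E := Fin (2 ^ s)) F.isLaw (fun ω => (F.T ω, Y ω))
  have h3 := sd_CH_fst (E := Fin (2 ^ s)) (p := F.p) F.T Y
  rw [Fintype.card_fin] at h2
  push_cast at h2
  rw [Real.log_pow] at h2
  rw [h2, h3]

/-- The time condition. -/
theorem dig_Tm (F : Fam m J) (s : ℕ) {e : ℝ} (h : F.Tm e) : (dig F s).Tm e := by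
  unfold Fam.Tm at h ⊢
  have h1 := dig_T F s (fun ω => (F.l ω, F.Z ω))
  have h2 : CH (dig F s).p (dig F s).T (fun w => ((dig F s).l w, (dig F s).Z w)) =
      CH (dig F s).p (dig F s).T (fun w => (F.l w.1, F.Z w.1)) := rfl
  rw [h2, h1]
  push_cast
  linarith

/-- The constant of the filling. -/
noncomputable def Cfi : ℝ := Real.log 13 + Real.log 13 + 2 * Real.log 15

/-- **(FILL)** The positions of the filled family, against the standard label. -/
theorem fill_std (F : Fam 2 J) (s : ℕ) (j : F.Ω → ℕ) :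
    CH (dig F s).p (fun w => ((dig F s).X (J + s) w, (dig F s).T w)) (dig F s).Z ≤
      CH F.p (fun ω => ((F.T ω, j ω), slb (J, s, j ω) (2 ^ J) (F.x ω) (F.d ω))) F.Z +
        2 * s * Real.log 2 + Cfi := by
  have hp := sd_isLaw F.isLaw (E := Fin (2 ^ s))
  have hq : ∀ w, 0 ≤ sd F.p (Fin (2 ^ s)) w := hp.nonneg
  set b : F.Ω → (ℕ × ℕ) × ((Fin 2 → ℤ) × (Fin 2 → ℤ)) :=
    fun ω => ((F.T ω, j ω), slb (J, s, j ω) (2 ^ J) (F.x ω) (F.d ω)) with hb
  set Y : F.Ω × Fin (2 ^ s) → Fin 2 → ℤ := fun w =>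
    lb (ag s (j w.1)) (1 / 2 ^ (J + s)) (1 / 2 ^ (J + s)) ((dig F s).x w) with hY
  have hE : (0 : ℝ) < 2 ^ (J + s) := by positivity
  have hEJ : (0 : ℝ) < 2 ^ J := by positivity
  have hEs : (0 : ℝ) < 2 ^ s := by positivity
  have e0 : (2 : ℝ) ^ (J + s) = 2 ^ J * 2 ^ s := pow_add _ _ _
  -- the mates
  have mate : ∀ w w' : F.Ω × Fin (2 ^ s), b w.1 = b w'.1 → w.2 = w'.2 →
      j w.1 = j w'.1 ∧ F.T w.1 = F.T w'.1 ∧
      |ce (ag s (j w.1)) (fun i => (dig F s).x w i - (dig F s).x w' i)| ≤ 2 * 2 ^ s / 2 ^ (J + s) ∧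
      |cn (ag s (j w.1)) (fun i => (dig F s).x w i - (dig F s).x w' i)| ≤ 2 / 2 ^ (J + s) := by
    intro w w' h1 h2
    rw [hb] at h1
    simp only [Prod.mk.injEq] at h1
    obtain ⟨⟨hT, hj⟩, h3⟩ := h1
    unfold slb lab at h3
    simp only [Prod.mk.injEq] at h3
    obtain ⟨hx, hd⟩ := h3
    rw [← hj] at hx hd
    obtain ⟨x1, x2⟩ := lb_eq (by positivity) (by positivity) hx
    obtain ⟨d1, d2⟩ := lb_eq (by positivity) (by positivity) hd
    refine ⟨hj, hT, ?_⟩
    have ex : (fun i => (dig F s).x w i - (dig F s).x w' i) =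
        (fun i => (F.x w.1 i - F.x w'.1 i) +
          ((w.2 : ℕ) : ℝ) / 2 ^ (J + s) * (F.d w.1 i - F.d w'.1 i)) := by
      funext i
      rw [dig_x, dig_x, ← h2]
      ring
    have hr0 : (0 : ℝ) ≤ ((w.2 : ℕ) : ℝ) / 2 ^ (J + s) := by positivity
    have hr : ((w.2 : ℕ) : ℝ) / 2 ^ (J + s) ≤ 1 / 2 ^ J := by
      rw [e0, div_le_div_iff₀ (by positivity) hEJ]
      have : ((w.2 : ℕ) : ℝ) ≤ 2 ^ s := by exact_mod_cast w.2.2.le
      nlinarith
    rw [ex, ce_add_smul, cn_add_smul]
    constructor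
    · refine (abs_add_le _ _).trans ?_
      rw [abs_mul, abs_of_nonneg hr0]
      have h5 : ((w.2 : ℕ) : ℝ) / 2 ^ (J + s) *
          |ce (ag s (j w.1)) (fun i => F.d w.1 i - F.d w'.1 i)| ≤ 1 / 2 ^ J * (2 ^ J * (1 / 2 ^ J)) :=
        mul_le_mul hr d1 (abs_nonneg _) (by positivity)
      have e1 : (1 : ℝ) / 2 ^ J * (2 ^ J * (1 / 2 ^ J)) = 1 / 2 ^ J := by field_simp
      have e2 : (2 : ℝ) * 2 ^ s / 2 ^ (J + s) = 1 / 2 ^ J + 1 / 2 ^ J := by
        rw [e0]
        field_simp
        ring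
      rw [e1] at h5
      rw [e2]
      exact add_le_add x1 h5
    · refine (abs_add_le _ _).trans ?_
      rw [abs_mul, abs_of_nonneg hr0]
      have h5 : ((w.2 : ℕ) : ℝ) / 2 ^ (J + s) *
          |cn (ag s (j w.1)) (fun i => F.d w.1 i - F.d w'.1 i)| ≤
          1 / 2 ^ J * (2 ^ J * (1 / 2 ^ J / 2 ^ s)) :=
        mul_le_mul hr d2 (abs_nonneg _) (by positivity)
      have e1 : (1 : ℝ) / 2 ^ J * (2 ^ J * (1 / 2 ^ J / 2 ^ s)) = 1 / 2 ^ J / 2 ^ s := by
        field_simp
      have e2 : (2 : ℝ) / 2 ^ (J + s) = 1 / 2 ^ J / 2 ^ s + 1 / 2 ^ J / 2 ^ s := by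
        rw [e0]
        field_simp
        ring
      rw [e1] at h5
      rw [e2]
      exact add_le_add x2 h5
  -- the chain
  have h1 : CH (dig F s).p (fun w => ((dig F s).X (J + s) w, (dig F s).T w)) (dig F s).Z ≤
      CH (sd F.p (Fin (2 ^ s))) (fun w => ((dig F s).X (J + s) w, (b w.1, w.2)))
        (fun w => F.Z w.1) := by
    refine CH_mono_left hq ?_
    intro w w' _ _ h
    simp only [Prod.mk.injEq] at h
    obtain ⟨⟨h1, h2, h3⟩, -⟩ := h
    have h4 : F.T w.1 = F.T w'.1 := by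
      rw [hb] at h2
      simp only [Prod.mk.injEq] at h2
      exact h2.1.1
    refine Prod.ext h1 ?_
    change F.T w.1 * 2 ^ s + w.2 = F.T w'.1 * 2 ^ s + w'.2
    rw [h4, h3]
  have h2 := CH_chain hq (fun w => (dig F s).X (J + s) w) (fun w => (b w.1, w.2))
    (fun w : F.Ω × Fin (2 ^ s) => F.Z w.1)
  have h3 := CH_subadd hq (fun w => b w.1) (fun w => w.2) (fun w : F.Ω × Fin (2 ^ s) => F.Z w.1)
  have h4 := sd_CH_fst (E := Fin (2 ^ s)) (p := F.p) b F.Z
  have h5 := sd_CH_unif (E := Fin (2 ^ s)) F.isLaw F.Z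
  rw [Fintype.card_fin] at h5
  push_cast at h5
  rw [Real.log_pow] at h5
  -- the position in the frame
  have h6 := CH_le_add hq (fun w => (dig F s).X (J + s) w) Y
    (fun w : F.Ω × Fin (2 ^ s) => ((b w.1, w.2), F.Z w.1))
  have h7 : CH (sd F.p (Fin (2 ^ s))) Y (fun w => ((b w.1, w.2), F.Z w.1)) ≤
      s * Real.log 2 + (Real.log 13 + Real.log 13) := by
    have k1 : CH (sd F.p (Fin (2 ^ s))) Y (fun w => ((b w.1, w.2), F.Z w.1)) ≤
        CH (sd F.p (Fin (2 ^ s))) (fun w => (Y w 0, Y w 1)) (fun w => ((b w.1, w.2), F.Z w.1)) := by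
      refine CH_mono_left hq ?_
      intro w w' _ _ h
      simp only [Prod.mk.injEq] at h
      funext i
      fin_cases i
      · exact h.1.1
      · exact h.1.2
    have k2 := CH_subadd hq (fun w => Y w 0) (fun w => Y w 1)
      (fun w : F.Ω × Fin (2 ^ s) => ((b w.1, w.2), F.Z w.1))
    have k3 := CH_le_int hq hp.sum_one (fun w => Y w 0)
      (fun w : F.Ω × Fin (2 ^ s) => ((b w.1, w.2), F.Z w.1)) (fun _ => 2 * 2 ^ s + 1) (by
        intro w w' _ _ h
        simp only [Prod.mk.injEq] at h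
        obtain ⟨⟨g1, g2⟩, -⟩ := h
        obtain ⟨m1, m2, m3, m4⟩ := mate w w' g1 g2
        have := lb_near (θ := ag s (j w.1)) (A := 1 / 2 ^ (J + s)) (B := 1 / 2 ^ (J + s))
          (κ := 2 * 2 ^ s) (x := (dig F s).x w) (y := (dig F s).x w') (by positivity)
          (by positivity) (by rw [mul_one_div]; exact m3) (by
            rw [mul_one_div]
            refine m4.trans ?_
            rw [div_le_div_iff_of_pos_right hE]
            have : (1 : ℝ) ≤ 2 ^ s := one_le_pow₀ (by norm_num)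
            linarith) 0
        simp only [hY]
        rw [← m1]
        exact this)
    have k4 := CH_le_int hq hp.sum_one (fun w => Y w 1)
      (fun w : F.Ω × Fin (2 ^ s) => ((b w.1, w.2), F.Z w.1)) (fun _ => 3) (by
        intro w w' _ _ h
        simp only [Prod.mk.injEq] at h
        obtain ⟨⟨g1, g2⟩, -⟩ := h
        obtain ⟨m1, m2, m3, m4⟩ := mate w w' g1 g2
        have e1 : (1 : Fin 2) = 1 := rfl
        simp only [hY]
        rw [← m1]
        have h8 : |cn (ag s (j w.1)) ((dig F s).x w) / (1 / 2 ^ (J + s)) -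
            cn (ag s (j w.1)) ((dig F s).x w') / (1 / 2 ^ (J + s))| ≤ 2 := by
          rw [← sub_div, ← cn_sub, abs_div, abs_of_pos (by positivity : (0 : ℝ) < 1 / 2 ^ (J + s)),
            div_le_iff₀ (by positivity), mul_one_div]
          exact m4
        unfold lb
        simp only [Matrix.cons_val_one, Matrix.cons_val_fin_one]
        have a1 := Int.floor_le (cn (ag s (j w.1)) ((dig F s).x w) / (1 / 2 ^ (J + s)))
        have a2 := Int.lt_floor_add_one (cn (ag s (j w.1)) ((dig F s).x w) / (1 / 2 ^ (J + s)))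
        have a3 := Int.floor_le (cn (ag s (j w.1)) ((dig F s).x w') / (1 / 2 ^ (J + s)))
        have a4 := Int.lt_floor_add_one (cn (ag s (j w.1)) ((dig F s).x w') / (1 / 2 ^ (J + s)))
        rw [abs_le] at h8 ⊢
        push_cast
        constructor <;> linarith [h8.1, h8.2])
    rw [Ex_const hp.sum_one] at k3 k4
    have k5 : Real.log (2 * (2 * 2 ^ s + 1) + 1) ≤ s * Real.log 2 + Real.log 13 := by
      rw [← Real.log_pow, ← Real.log_mul (by positivity) (by norm_num)]
      apply Real.log_le_log (by positivity)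
      have : (1 : ℝ) ≤ 2 ^ s := one_le_pow₀ (by norm_num)
      linarith
    have k6 : Real.log (2 * 3 + 1) ≤ Real.log 13 := Real.log_le_log (by norm_num) (by norm_num)
    linarith
  have h8 : CH (sd F.p (Fin (2 ^ s))) (fun w => (dig F s).X (J + s) w)
      (fun w => (Y w, ((b w.1, w.2), F.Z w.1))) ≤ 2 * Real.log 15 := by
    have k1 := vec_const hq hp.sum_one (fun w => (dig F s).X (J + s) w)
      (fun w : F.Ω × Fin (2 ^ s) => (Y w, ((b w.1, w.2), F.Z w.1))) (c := 3) (by
        intro w w' _ _ h i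
        simp only [Prod.mk.injEq] at h
        obtain ⟨g0, ⟨g1, g2⟩, -⟩ := h
        obtain ⟨m1, m2, m3, m4⟩ := mate w w' g1 g2
        simp only [hY] at g0
        rw [← m1] at g0
        obtain ⟨y1, y2⟩ := lb_eq (by positivity) (by positivity) g0
        set v : Fin 2 → ℝ := fun i => (dig F s).x w i - (dig F s).x w' i with hv
        have h9 : |v i| ≤ 2 / 2 ^ (J + s) := by
          have c0 : v 0 = cos (ag s (j w.1)) * ce (ag s (j w.1)) v -
              sin (ag s (j w.1)) * cn (ag s (j w.1)) v := by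
            unfold ce cn
            linear_combination (-(v 0)) * (sin_sq_add_cos_sq (ag s (j w.1)))
          have c1 : v 1 = sin (ag s (j w.1)) * ce (ag s (j w.1)) v +
              cos (ag s (j w.1)) * cn (ag s (j w.1)) v := by
            unfold ce cn
            linear_combination (-(v 1)) * (sin_sq_add_cos_sq (ag s (j w.1)))
          have d1 := abs_cos_le_one (ag s (j w.1))
          have d2 := abs_sin_le_one (ag s (j w.1))
          have e3 : (2 : ℝ) / 2 ^ (J + s) = 1 / 2 ^ (J + s) + 1 / 2 ^ (J + s) := by ring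
          fin_cases i
          · simp only [Fin.zero_eta]
            rw [c0, e3]
            refine (abs_sub _ _).trans ?_
            rw [abs_mul, abs_mul]
            refine add_le_add ?_ ?_
            · exact (mul_le_of_le_one_left (abs_nonneg _) d1).trans y1
            · exact (mul_le_of_le_one_left (abs_nonneg _) d2).trans y2
          · simp only [Fin.mk_one]
            rw [c1, e3]
            refine (abs_add_le _ _).trans ?_
            rw [abs_mul, abs_mul]
            refine add_le_add ?_ ?_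
            · exact (mul_le_of_le_one_left (abs_nonneg _) d2).trans y1
            · exact (mul_le_of_le_one_left (abs_nonneg _) d1).trans y2
        have h10 : |2 ^ (J + s) * (dig F s).x w i - 2 ^ (J + s) * (dig F s).x w' i| ≤ 2 := by
          rw [← mul_sub, abs_mul, abs_of_pos hE]
          rw [le_div_iff₀ hE] at h9
          linarith
        have ew : (dig F s).X (J + s) w i = ⌊2 ^ (J + s) * (dig F s).x w i⌋ := rfl
        have ew' : (dig F s).X (J + s) w' i = ⌊2 ^ (J + s) * (dig F s).x w' i⌋ := rfl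
        rw [ew, ew']
        have a1 := Int.floor_le (2 ^ (J + s) * (dig F s).x w i)
        have a2 := Int.lt_floor_add_one (2 ^ (J + s) * (dig F s).x w i)
        have a3 := Int.floor_le (2 ^ (J + s) * (dig F s).x w' i)
        have a4 := Int.lt_floor_add_one (2 ^ (J + s) * (dig F s).x w' i)
        rw [abs_le] at h10 ⊢
        push_cast
        constructor <;> linarith [h10.1, h10.2])
    have k2 : Real.log (2 * 3 + 1) ≤ Real.log 15 := Real.log_le_log (by norm_num) (by norm_num)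
    push_cast at k1
    linarith
  unfold Cfi
  have h9 : CH (sd F.p (Fin (2 ^ s))) (fun w => ((dig F s).X (J + s) w, (b w.1, w.2)))
      (fun w => F.Z w.1) = CH (sd F.p (Fin (2 ^ s))) (fun w => (b w.1, w.2)) (fun w => F.Z w.1) +
        CH (sd F.p (Fin (2 ^ s))) (fun w => (dig F s).X (J + s) w)
          (fun w => ((b w.1, w.2), F.Z w.1)) := by
    linarith
  linarith

end Pool.KM7
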